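import Mathlib

set_option autoImplicit false

namespace Pool.Agent.Results.MP_aaa104_nt.NotRecovered

/-- `K̂_n`: the positive rationals `a/b` with `a`, `b` both `n`-smooth (in lowest terms:
every prime dividing the numerator or the denominator is `≤ n`). -/
def KHat (n : ℕ) : Set ℚ :=
  {x | 0 < x ∧ ∀ p : ℕ, p.Prime → (p ∣ x.num.natAbs ∨ p ∣ x.den) → p ≤ n}

/-- `c` (of which only the values on `K̂_n` matter) is an `n`-satisfactory coloring of `K̂_n`: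
it takes values in `[n]` there, `c(i) = i` for `i ∈ [n]`, and `c(ix) ≠ c(jx)` for all
`x ∈ K̂_n` and `1 ≤ i < j ≤ n`. -/
def Satisfactory (n : ℕ) (c : ℚ → ℕ) : Prop :=
  (∀ x ∈ KHat n, 1 ≤ c x ∧ c x ≤ n) ∧
  (∀ i : ℕ, 1 ≤ i → i ≤ n → c (i : ℚ) = i) ∧
  (∀ x ∈ KHat n, ∀ i j : ℕ, 1 ≤ i → i < j → j ≤ n → c ((i : ℚ) * x) ≠ c ((j : ℚ) * x))

/-- The color class of color `k` in `K̂_n`. -/
def colorClass (n : ℕ) (c : ℚ → ℕ) (k : ℕ) : Set ℚ := {x | x ∈ KHat n ∧ c x = k}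

/-- The part indexed by `i` of the partition `c'` induced by `X`: the `y ∈ K̂_n` with
`y / i ∈ X`, i.e. the set `t⁻¹(t(i) + t(X))`. -/
def part (n : ℕ) (X : Set ℚ) (i : ℕ) : Set ℚ := {y | y ∈ KHat n ∧ y / (i : ℚ) ∈ X}

/-- `p`-adic valuation. -/
noncomputable def v (p : ℕ) (x : ℚ) : ℤ := padicValRat p x

/-- The homomorphism `K̂_12 → ℤ/12` (as an integer). -/
noncomputable def phi (x : ℚ) : ℤ := v 2 x + 8 * v 3 x + 6 * v 5 x + 5 * v 7 x + 11 * v 11 x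

/-- The two invariants which agree on `{i, j}` when `phi i` and `phi j` differ by `6`. -/
noncomputable def m (x : ℚ) : ℤ := v 2 x + 2 * v 3 x
noncomputable def k (x : ℚ) : ℤ := v 7 x + v 11 x

open Classical in
noncomputable def eta (x : ℚ) : ℤ := if m x = 6 ∧ k x = 0 then 6 else 0

/-- The inverse of `phi` on `[12]`. -/
def col : ℤ → ℕ
  | 0 => 1 | 1 => 2 | 2 => 4 | 3 => 8 | 4 => 9 | 5 => 7
  | 6 => 5 | 7 => 10 | 8 => 3 | 9 => 6 | 10 => 12 | _ => 11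

/-- The coloring: the homomorphism coloring, with the colors `1` and `5` swapped on one fibre. -/
noncomputable def c (x : ℚ) : ℕ := col ((phi x + eta x) % 12)

lemma v_mul (p : ℕ) [Fact p.Prime] (x y : ℚ) (hx : x ≠ 0) (hy : y ≠ 0) :
    v p (x * y) = v p x + v p y := padicValRat.mul hx hy

instance : Fact (Nat.Prime 11) := ⟨by norm_num⟩
instance : Fact (Nat.Prime 7) := ⟨by norm_num⟩
instance : Fact (Nat.Prime 5) := ⟨by norm_num⟩

lemma v_self (p : ℕ) [hp : Fact p.Prime] : v p (p : ℚ) = 1 := by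
  unfold v
  rw [padicValRat.of_nat, padicValNat.self hp.out.one_lt]; rfl

lemma v_one (p : ℕ) : v p 1 = 0 := by
  unfold v; simp

lemma v_ne (p q : ℕ) [hp : Fact p.Prime] [hq : Fact q.Prime] (h : p ≠ q) : v p (q : ℚ) = 0 := by
  unfold v
  rw [padicValRat.of_nat, padicValNat_primes h]; rfl

lemma tab2 : v 2 2 = 1 ∧ v 2 3 = 0 ∧ v 2 5 = 0 ∧ v 2 7 = 0 ∧ v 2 11 = 0 := by
  refine ⟨?_, ?_, ?_, ?_, ?_⟩
  · exact_mod_cast v_self 2
  · exact_mod_cast v_ne 2 3 (by norm_num)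
  · exact_mod_cast v_ne 2 5 (by norm_num)
  · exact_mod_cast v_ne 2 7 (by norm_num)
  · exact_mod_cast v_ne 2 11 (by norm_num)

lemma tab3 : v 3 2 = 0 ∧ v 3 3 = 1 ∧ v 3 5 = 0 ∧ v 3 7 = 0 ∧ v 3 11 = 0 := by
  refine ⟨?_, ?_, ?_, ?_, ?_⟩
  · exact_mod_cast v_ne 3 2 (by norm_num)
  · exact_mod_cast v_self 3
  · exact_mod_cast v_ne 3 5 (by norm_num)
  · exact_mod_cast v_ne 3 7 (by norm_num)
  · exact_mod_cast v_ne 3 11 (by norm_num)

lemma tab5 : v 5 2 = 0 ∧ v 5 3 = 0 ∧ v 5 5 = 1 ∧ v 5 7 = 0 ∧ v 5 11 = 0 := by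
  refine ⟨?_, ?_, ?_, ?_, ?_⟩
  · exact_mod_cast v_ne 5 2 (by norm_num)
  · exact_mod_cast v_ne 5 3 (by norm_num)
  · exact_mod_cast v_self 5
  · exact_mod_cast v_ne 5 7 (by norm_num)
  · exact_mod_cast v_ne 5 11 (by norm_num)

lemma tab7 : v 7 2 = 0 ∧ v 7 3 = 0 ∧ v 7 5 = 0 ∧ v 7 7 = 1 ∧ v 7 11 = 0 := by
  refine ⟨?_, ?_, ?_, ?_, ?_⟩
  · exact_mod_cast v_ne 7 2 (by norm_num)
  · exact_mod_cast v_ne 7 3 (by norm_num)
  · exact_mod_cast v_ne 7 5 (by norm_num)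
  · exact_mod_cast v_self 7
  · exact_mod_cast v_ne 7 11 (by norm_num)

lemma tab11 : v 11 2 = 0 ∧ v 11 3 = 0 ∧ v 11 5 = 0 ∧ v 11 7 = 0 ∧ v 11 11 = 1 := by
  refine ⟨?_, ?_, ?_, ?_, ?_⟩
  · exact_mod_cast v_ne 11 2 (by norm_num)
  · exact_mod_cast v_ne 11 3 (by norm_num)
  · exact_mod_cast v_ne 11 5 (by norm_num)
  · exact_mod_cast v_ne 11 7 (by norm_num)
  · exact_mod_cast v_self 11

lemma phi_mul (x y : ℚ) (hx : x ≠ 0) (hy : y ≠ 0) : phi (x * y) = phi x + phi y := by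
  unfold phi; rw [v_mul 2 x y hx hy, v_mul 3 x y hx hy, v_mul 5 x y hx hy, v_mul 7 x y hx hy,
    v_mul 11 x y hx hy]; ring

lemma m_mul (x y : ℚ) (hx : x ≠ 0) (hy : y ≠ 0) : m (x * y) = m x + m y := by
  unfold m; rw [v_mul 2 x y hx hy, v_mul 3 x y hx hy]; ring

lemma k_mul (x y : ℚ) (hx : x ≠ 0) (hy : y ≠ 0) : k (x * y) = k x + k y := by
  unfold k; rw [v_mul 7 x y hx hy, v_mul 11 x y hx hy]; ring

/-- values `(phi, m, k)` -/
def Val (x : ℚ) (a b d : ℤ) : Prop := x ≠ 0 ∧ phi x = a ∧ m x = b ∧ k x = d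

lemma Val.mul {x y : ℚ} {a b d a' b' d' : ℤ} (h : Val x a b d) (h' : Val y a' b' d') :
    Val (x * y) (a + a') (b + b') (d + d') := by
  obtain ⟨h0, h1, h2, h3⟩ := h
  obtain ⟨h0', h1', h2', h3'⟩ := h'
  refine ⟨mul_ne_zero h0 h0', ?_, ?_, ?_⟩
  · rw [phi_mul x y h0 h0', h1, h1']
  · rw [m_mul x y h0 h0', h2, h2']
  · rw [k_mul x y h0 h0', h3, h3']

lemma val1 : Val 1 0 0 0 := by
  refine ⟨by norm_num, ?_, ?_, ?_⟩ <;> simp [phi, m, k, v_one]
lemma val2 : Val 2 1 1 0 := by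
  refine ⟨by norm_num, ?_, ?_, ?_⟩ <;> simp [phi, m, k, tab2, tab3, tab5, tab7, tab11]
lemma val3 : Val 3 8 2 0 := by
  refine ⟨by norm_num, ?_, ?_, ?_⟩ <;> simp [phi, m, k, tab2, tab3, tab5, tab7, tab11]
lemma val5 : Val 5 6 0 0 := by
  refine ⟨by norm_num, ?_, ?_, ?_⟩ <;> simp [phi, m, k, tab2, tab3, tab5, tab7, tab11]
lemma val7 : Val 7 5 0 1 := by
  refine ⟨by norm_num, ?_, ?_, ?_⟩ <;> simp [phi, m, k, tab2, tab3, tab5, tab7, tab11]
lemma val11 : Val 11 11 0 1 := by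
  refine ⟨by norm_num, ?_, ?_, ?_⟩ <;> simp [phi, m, k, tab2, tab3, tab5, tab7, tab11]

lemma Val.cast {x y : ℚ} {a b d a' b' d' : ℤ} (h : Val x a b d) (hx : x = y) (ha : a = a')
    (hb : b = b') (hd : d = d') : Val y a' b' d' := by subst hx ha hb hd; exact h

/-- table of `(phi, m, k)` on `[12]` -/
def pt : ℕ → ℤ
  | 1 => 0 | 2 => 1 | 3 => 8 | 4 => 2 | 5 => 6 | 6 => 9 | 7 => 5 | 8 => 3 | 9 => 16 | 10 => 7
  | 11 => 11 | _ => 10
def mt : ℕ → ℤ
  | 1 => 0 | 2 => 1 | 3 => 2 | 4 => 2 | 5 => 0 | 6 => 3 | 7 => 0 | 8 => 3 | 9 => 4 | 10 => 1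
  | 11 => 0 | _ => 4
def kt : ℕ → ℤ
  | 1 => 0 | 2 => 0 | 3 => 0 | 4 => 0 | 5 => 0 | 6 => 0 | 7 => 1 | 8 => 0 | 9 => 0 | 10 => 0
  | 11 => 1 | _ => 0

lemma val_nat (i : ℕ) (h1 : 1 ≤ i) (h2 : i ≤ 12) : Val (i : ℚ) (pt i) (mt i) (kt i) := by
  have h4 := val2.mul val2
  interval_cases i
  · exact val1.cast (by norm_num) rfl rfl rfl
  · exact val2.cast (by norm_num) rfl rfl rfl
  · exact val3.cast (by norm_num) rfl rfl rfl
  · exact h4.cast (by norm_num) rfl rfl rfl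
  · exact val5.cast (by norm_num) rfl rfl rfl
  · exact (val2.mul val3).cast (by norm_num) rfl rfl rfl
  · exact val7.cast (by norm_num) rfl rfl rfl
  · exact (h4.mul val2).cast (by norm_num) rfl rfl rfl
  · exact (val3.mul val3).cast (by norm_num) rfl rfl rfl
  · exact (val2.mul val5).cast (by norm_num) rfl rfl rfl
  · exact val11.cast (by norm_num) rfl rfl rfl
  · exact (h4.mul val3).cast (by norm_num) rfl rfl rfl

lemma col_inj (a b : ℤ) (ha : 0 ≤ a) (ha' : a < 12) (hb : 0 ≤ b) (hb' : b < 12)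
    (h : col a = col b) : a = b := by
  interval_cases a <;> interval_cases b <;> first | rfl | (exfalso; revert h; decide)

lemma col_range (a : ℤ) (ha : 0 ≤ a) (ha' : a < 12) : 1 ≤ col a ∧ col a ≤ 12 := by
  interval_cases a <;> decide

lemma c_eq {x : ℚ} {a b d : ℤ} (h : Val x a b d) :
    c x = col ((a + (if b = 6 ∧ d = 0 then 6 else 0)) % 12) := by
  obtain ⟨_, h1, h2, h3⟩ := h
  unfold c eta
  rw [h1, h2, h3]

lemma c_ne (x : ℚ) (hx : x ≠ 0) (i j : ℕ) (hi : 1 ≤ i) (hij : i < j) (hj : j ≤ 12) :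
    c ((i : ℚ) * x) ≠ c ((j : ℚ) * x) := by
  have hV : Val x (phi x) (m x) (k x) := ⟨hx, rfl, rfl, rfl⟩
  have hVi := (val_nat i hi (by omega)).mul hV
  have hVj := (val_nat j (by omega) hj).mul hV
  rw [c_eq hVi, c_eq hVj]
  intro h
  have h' := col_inj _ _ (Int.emod_nonneg _ (by norm_num)) (Int.emod_lt_of_pos _ (by norm_num))
    (Int.emod_nonneg _ (by norm_num)) (Int.emod_lt_of_pos _ (by norm_num)) h
  generalize phi x = P at h'
  generalize m x = M at h'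
  generalize k x = K at h'
  clear h hV hVi hVj
  have key : (pt i - pt j) % 6 = 0 := by
    split_ifs at h' <;> omega
  have key2 : mt i = mt j ∧ kt i = kt j ∧ (pt i - pt j) % 12 ≠ 0 := by
    clear h'
    interval_cases j <;> interval_cases i <;>
      first | (exfalso; revert key; decide) | decide
  obtain ⟨k1, k2, k3⟩ := key2
  rw [k1, k2] at h'
  omega

lemma sat : Satisfactory 12 c := by
  refine ⟨?_, ?_, ?_⟩
  · intro x _
    exact col_range _ (Int.emod_nonneg _ (by norm_num)) (Int.emod_lt_of_pos _ (by norm_num))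
  · intro i h1 h2
    rw [c_eq (val_nat i h1 h2)]
    interval_cases i <;> decide
  · intro x hx i j hi hij hj
    exact c_ne x (ne_of_gt hx.1) i j hi hij hj

lemma smooth_nat (N : ℕ) (h0 : 0 < N) (h : ∀ p : ℕ, p.Prime → p ∣ N → p ≤ 12) :
    (N : ℚ) ∈ KHat 12 := by
  refine ⟨by exact_mod_cast h0, ?_⟩
  intro p hp hd
  rcases hd with hd | hd
  · apply h p hp
    simpa using hd
  · exfalso
    have : p ∣ 1 := by simpa using hd
    exact hp.one_lt.ne' (Nat.dvd_one.1 this)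

lemma smooth_two_pow (e : ℕ) : ((2 ^ e : ℕ) : ℚ) ∈ KHat 12 := by
  apply smooth_nat _ (by positivity)
  intro p hp hd
  have := (Nat.prime_dvd_prime_iff_eq hp Nat.prime_two).1 (hp.dvd_of_dvd_pow hd)
  omega

lemma val_two_pow (e : ℕ) : Val ((2 ^ e : ℕ) : ℚ) e e 0 := by
  induction e with
  | zero => exact val1.cast (by norm_num) rfl rfl rfl
  | succ n ih =>
    exact (ih.mul val2).cast (by push_cast; ring) (by push_cast; ring) (by push_cast; ring)
      (by norm_num)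

/-- **Q1 is false.**  There are a `12`-satisfactory coloring `c` of `K̂_12`, a color class `X`
of `c` (that of color `1`) and an `i ∈ [12]` (namely `i = 2`) such that the part
`t⁻¹(t(i) + t(X))` of the induced partition `c'` is not a color class of `c`. -/
theorem result :
    ∃ c : ℚ → ℕ, Satisfactory 12 c ∧
      ∀ l ∈ Finset.Icc 1 12, part 12 (colorClass 12 c 1) 2 ≠ colorClass 12 c l := by
  refine ⟨c, sat, ?_⟩
  intro l _ h
  have e1 : c (1 : ℚ) = 1 := by exact_mod_cast sat.2.1 1 (by norm_num) (by norm_num)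
  have e2 : c (2 : ℚ) = 2 := by exact_mod_cast sat.2.1 2 (by norm_num) (by norm_num)
  have e64 : c (64 : ℚ) = 1 := by
    have := c_eq (val_two_pow 6)
    norm_num at this
    rw [this]; decide
  have e128 : c (128 : ℚ) = 10 := by
    have := c_eq (val_two_pow 7)
    norm_num at this
    rw [this]; decide
  have m1 : (1 : ℚ) ∈ KHat 12 := by simpa using smooth_two_pow 0
  have m2 : (2 : ℚ) ∈ KHat 12 := by simpa using smooth_two_pow 1
  have m64 : (64 : ℚ) ∈ KHat 12 := by simpa using smooth_two_pow 6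
  have m128 : (128 : ℚ) ∈ KHat 12 := by simpa using smooth_two_pow 7
  have p2 : (2 : ℚ) ∈ part 12 (colorClass 12 c 1) 2 := by
    refine ⟨m2, ?_⟩
    norm_num
    exact ⟨m1, e1⟩
  have p128 : (128 : ℚ) ∈ part 12 (colorClass 12 c 1) 2 := by
    refine ⟨m128, ?_⟩
    norm_num
    exact ⟨m64, e64⟩
  rw [h] at p2 p128
  have a1 := p2.2
  have a2 := p128.2
  omega

end Pool.Agent.Results.MP_aaa104_nt.NotRecovered
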